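import Pool.Agent.H89R2.AG.NA
import Pool.Agent.H18R2.AG.NF
import Pool.Agent.H895R2.AG.NE
import Pool.Agent.H204R2.AG.NG
import Pool.Agent.H459R2.AG.NC
import Pool.Agent.H89R2.AG.NB
import Pool.Agent.H115R4.ND2

/-!
# The weighted nibble theorem of the starting library, assembled alone
-/

namespace H248.Nib

open H115R4

theorem second_moment_T : second_moment :=
  second_moment_of' cv_bd_proof sp_lower_proof (Ex_sp_of Ex_surv_proof)

theorem Ex_wn_T : Ex_wn :=
  Ex_wn_of second_moment_T sp_lower_proof (Ex_sp_of Ex_surv_proof) Ex_mono_proof cv_bd_proof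

theorem one_round_T : one_round :=
  one_round_of (Ex_iso_of Ex_pick_proof) Ex_wn_T wn_good_proof Ex_exists_proof cv_bd_proof

/-- the weighted nibble theorem (Frankl–Rödl, Pippenger, Kahn) -/
theorem nibble_T : nibble := nibble_of (nibS_all_of one_round_T)

end H248.Nib
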